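import Mathlib

/-!
# MP_ce4ed9_an, part 1: basic facts on `x ↦ β x + α mod 1`
-/

namespace Pool.Agent.R241.CE

open Set

/-- The parameter set. -/
structure Par (α β : ℝ) : Prop where
  b1 : 1 < β
  b2 : β ≤ 2
  a0 : 0 ≤ α
  ab : α + β ≤ 2

/-- The discontinuity. -/
noncomputable def cc (α β : ℝ) : ℝ := (1 - α) / β

/-- The map on the real line. -/
noncomputable def F (α β x : ℝ) : ℝ := if x < cc α β then β * x + α else β * x + α - 1

/-- The domain of continuity inside `(0,1)`. -/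
def D (α β : ℝ) : Set ℝ := {x | 0 < x ∧ x < 1 ∧ x ≠ cc α β}

/-- Images along the domain of continuity. -/
def Fi (α β : ℝ) (U : Set ℝ) : Set ℝ := F α β '' (U ∩ D α β)

/-- An orbit segment in the domain of continuity. -/
def Good (α β : ℝ) (n : ℕ) (t s : ℝ) : Prop :=
  (∀ i < n, (F α β)^[i] t ∈ D α β) ∧ (F α β)^[n] t = s

variable {α β : ℝ}

theorem c_pos (h : Par α β) : 0 < cc α β :=
  div_pos (by linarith [h.ab, h.b1]) (by linarith [h.b1])

theorem bc (h : Par α β) : β * cc α β = 1 - α := by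
  have := h.b1
  rw [cc]
  field_simp

theorem c_lt (h : Par α β) : cc α β < 1 := by
  have h1 := h.b1
  have h2 := h.a0
  rw [cc, div_lt_one (by linarith)]
  linarith

theorem F_left {x : ℝ} (hx : x < cc α β) : F α β x = β * x + α := if_pos hx

theorem F_right {x : ℝ} (hx : cc α β ≤ x) : F α β x = β * x + α - 1 := if_neg (not_lt.mpr hx)

theorem F_right_c (h : Par α β) {x : ℝ} (hx : cc α β ≤ x) : F α β x = β * (x - cc α β) := by
  rw [F_right hx, mul_sub, bc h]
  ring

theorem F_left_c (h : Par α β) {x : ℝ} (hx : x < cc α β) :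
    F α β x = 1 - β * (cc α β - x) := by
  rw [F_left hx, mul_sub, bc h]
  ring

theorem F_mem_Ico (h : Par α β) {x : ℝ} (hx : x ∈ Ico (0 : ℝ) 1) : F α β x ∈ Ico (0 : ℝ) 1 := by
  have hb := h.b1
  have ha := h.a0
  have hab := h.ab
  obtain ⟨h0, h1⟩ := hx
  rcases lt_or_ge x (cc α β) with hc | hc
  · constructor
    · rw [F_left hc]
      nlinarith
    · rw [F_left_c h hc]
      nlinarith
  · constructor
    · rw [F_right_c h hc]
      nlinarith
    · rw [F_right hc]
      nlinarith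

theorem F_mem (h : Par α β) {x : ℝ} (hx : x ∈ D α β) : F α β x ∈ Ioo (0 : ℝ) 1 := by
  have hb := h.b1
  have ha := h.a0
  have hab := h.ab
  obtain ⟨h0, h1, hne⟩ := hx
  rcases lt_or_gt_of_ne hne with hc | hc
  · constructor
    · rw [F_left hc]
      nlinarith
    · rw [F_left_c h hc]
      nlinarith
  · constructor
    · rw [F_right_c h hc.le]
      nlinarith
    · rw [F_right hc.le]
      nlinarith

theorem F_gt (h : Par α β) {x : ℝ} (h0 : 0 < x) (hc : x < cc α β) : x < F α β x := by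
  have hb := h.b1
  have ha := h.a0
  rw [F_left hc]
  nlinarith

theorem F_lt (h : Par α β) {x : ℝ} (hc : cc α β < x) (h1 : x < 1) : F α β x < x := by
  have hb := h.b1
  have ha := h.a0
  have hab := h.ab
  rw [F_right hc.le]
  nlinarith

theorem F_lt_gamma (h : Par α β) {x : ℝ} (hc : cc α β < x) (h1 : x < 1) :
    F α β x < α + β - 1 := by
  have hb := h.b1
  rw [F_right hc.le]
  nlinarith

theorem F_gt_alpha (h : Par α β) {x : ℝ} (h0 : 0 < x) (hc : x < cc α β) :
    α < F α β x := by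
  have hb := h.b1
  rw [F_left hc]
  nlinarith

/-- The left preimage. -/
noncomputable def p0 (α β x : ℝ) : ℝ := (x - α) / β

/-- The right preimage. -/
noncomputable def p1 (α β x : ℝ) : ℝ := (x + 1 - α) / β

theorem p0_lt (h : Par α β) {x : ℝ} (hx : x < 1) : p0 α β x < cc α β := by
  have hb := h.b1
  rw [p0, cc]
  apply div_lt_div_of_pos_right _ (by linarith)
  linarith

theorem p0_pos (h : Par α β) {x : ℝ} (hx : α < x) : 0 < p0 α β x :=
  div_pos (by linarith) (by linarith [h.b1])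

theorem F_p0 (h : Par α β) {x : ℝ} (hx : x < 1) : F α β (p0 α β x) = x := by
  have hb := h.b1
  rw [F_left (p0_lt h hx), p0]
  field_simp
  ring

theorem p1_gt (h : Par α β) {x : ℝ} (hx : 0 < x) : cc α β < p1 α β x := by
  have hb := h.b1
  rw [p1, cc]
  apply div_lt_div_of_pos_right _ (by linarith)
  linarith

theorem p1_lt (h : Par α β) {x : ℝ} (hx : x < α + β - 1) : p1 α β x < 1 := by
  have hb := h.b1
  rw [p1, div_lt_one (by linarith)]
  linarith

theorem F_p1 (h : Par α β) {x : ℝ} (hx : 0 < x) : F α β (p1 α β x) = x := by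
  have hb := h.b1
  rw [F_right (p1_gt h hx).le, p1]
  field_simp
  ring

theorem p0_D (h : Par α β) {x : ℝ} (h1 : α < x) (h2 : x < 1) : p0 α β x ∈ D α β :=
  ⟨p0_pos h h1, (p0_lt h h2).trans (c_lt h), (p0_lt h h2).ne⟩

theorem p1_D (h : Par α β) {x : ℝ} (h1 : 0 < x) (h2 : x < α + β - 1) : p1 α β x ∈ D α β :=
  ⟨(c_pos h).trans (p1_gt h h1), p1_lt h h2, (p1_gt h h1).ne'⟩

/-- The local form of `F`. -/
theorem F_local (h : Par α β) {x : ℝ} (hx : x ∈ D α β) :
    ∃ e > 0, ∀ t, |t - x| < e → t ∈ D α β ∧ F α β t = F α β x + β * (t - x) := by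
  obtain ⟨h0, h1, hne⟩ := hx
  have hc0 := c_pos h
  have hc1 := c_lt h
  rcases lt_or_gt_of_ne hne with hc | hc
  · refine ⟨min x (cc α β - x), lt_min h0 (by linarith), ?_⟩
    intro t ht
    have e1 := ht.trans_le (min_le_left _ _)
    have e2 := ht.trans_le (min_le_right _ _)
    rw [abs_lt] at e1 e2
    have ht1 : t < cc α β := by linarith
    refine ⟨⟨by linarith, by linarith, ht1.ne⟩, ?_⟩
    rw [F_left ht1, F_left hc]
    ring
  · refine ⟨min (1 - x) (x - cc α β), lt_min (by linarith) (by linarith), ?_⟩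
    intro t ht
    have e1 := ht.trans_le (min_le_left _ _)
    have e2 := ht.trans_le (min_le_right _ _)
    rw [abs_lt] at e1 e2
    have ht1 : cc α β < t := by linarith
    refine ⟨⟨by linarith, by linarith, ht1.ne'⟩, ?_⟩
    rw [F_right ht1.le, F_right hc.le]
    ring

/-- The right local form of `F`. -/
theorem F_rlocal (h : Par α β) {x : ℝ} (hx : x ∈ Ico (0 : ℝ) 1) :
    ∃ e > 0, ∀ t, 0 < t → t < e → x + t ∈ D α β ∧ F α β (x + t) = F α β x + β * t := by
  obtain ⟨h0, h1⟩ := hx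
  have hc0 := c_pos h
  have hc1 := c_lt h
  rcases lt_or_ge x (cc α β) with hc | hc
  · refine ⟨cc α β - x, by linarith, ?_⟩
    intro t ht0 ht
    have ht1 : x + t < cc α β := by linarith
    refine ⟨⟨by linarith, by linarith, ht1.ne⟩, ?_⟩
    rw [F_left ht1, F_left hc]
    ring
  · refine ⟨1 - x, by linarith, ?_⟩
    intro t ht0 ht
    have ht1 : cc α β < x + t := by linarith
    refine ⟨⟨by linarith, by linarith, ht1.ne'⟩, ?_⟩
    rw [F_right ht1.le, F_right hc]
    ring

theorem iter_mem (h : Par α β) {x : ℝ} (hx : x ∈ Ico (0 : ℝ) 1) (n : ℕ) :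
    (F α β)^[n] x ∈ Ico (0 : ℝ) 1 := by
  induction n with
  | zero => exact hx
  | succ n ih =>
    rw [Function.iterate_succ_apply']
    exact F_mem_Ico h ih

/-- Right perturbation. -/
theorem pert (h : Par α β) {x : ℝ} (hx : x ∈ Ico (0 : ℝ) 1) (n : ℕ) :
    ∃ e > 0, ∀ t, 0 < t → t < e → Good α β n (x + t) ((F α β)^[n] x + β ^ n * t) := by
  have hb := h.b1
  induction n with
  | zero =>
    refine ⟨1, one_pos, fun t _ _ => ⟨fun i hi => absurd hi (Nat.not_lt_zero _), ?_⟩⟩
    simp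
  | succ n ih =>
    obtain ⟨e1, he1, h1⟩ := ih
    obtain ⟨e2, he2, h2⟩ := F_rlocal h (iter_mem h hx n)
    have hp : 0 < β ^ n := by positivity
    refine ⟨min e1 (e2 / β ^ n), lt_min he1 (by positivity), ?_⟩
    intro t ht0 ht
    obtain ⟨h3, h4⟩ := h1 t ht0 (ht.trans_le (min_le_left _ _))
    have h5 : β ^ n * t < e2 := by
      have := ht.trans_le (min_le_right _ _)
      rw [lt_div_iff₀ hp] at this
      linarith [mul_comm t (β ^ n)]
    obtain ⟨h6, h7⟩ := h2 (β ^ n * t) (by positivity) h5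
    refine ⟨?_, ?_⟩
    · intro i hi
      rcases Nat.lt_succ_iff_lt_or_eq.mp hi with h8 | rfl
      · exact h3 i h8
      · rw [h4]
        exact h6
    · rw [Function.iterate_succ_apply', h4, h7, Function.iterate_succ_apply', pow_succ]
      ring

/-- Two-sided perturbation of good orbit segments. -/
theorem pert2 (h : Par α β) {z s : ℝ} {n : ℕ} (hz : Good α β n z s) :
    ∃ e > 0, ∀ t, |t - z| < e → Good α β n t (s + β ^ n * (t - z)) := by
  have hb := h.b1
  induction n generalizing s with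
  | zero =>
    refine ⟨1, one_pos, fun t _ => ⟨fun i hi => absurd hi (Nat.not_lt_zero _), ?_⟩⟩
    have : z = s := hz.2
    rw [← this]
    simp
  | succ n ih =>
    obtain ⟨hz1, hz2⟩ := hz
    obtain ⟨e1, he1, h1⟩ := ih (s := (F α β)^[n] z) ⟨fun i hi => hz1 i (by omega), rfl⟩
    obtain ⟨e2, he2, h2⟩ := F_local h (hz1 n (Nat.lt_succ_self n))
    have hp : 0 < β ^ n := by positivity
    refine ⟨min e1 (e2 / β ^ n), lt_min he1 (by positivity), ?_⟩
    intro t ht
    obtain ⟨h3, h4⟩ := h1 t (ht.trans_le (min_le_left _ _))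
    have h5 : |(F α β)^[n] z + β ^ n * (t - z) - (F α β)^[n] z| < e2 := by
      have := ht.trans_le (min_le_right _ _)
      rw [lt_div_iff₀ hp] at this
      rw [add_sub_cancel_left, abs_mul, abs_of_pos hp]
      linarith [mul_comm (|t - z|) (β ^ n)]
    obtain ⟨h6, h7⟩ := h2 _ h5
    refine ⟨?_, ?_⟩
    · intro i hi
      rcases Nat.lt_succ_iff_lt_or_eq.mp hi with h8 | rfl
      · exact h3 i h8
      · rw [h4]
        exact h6
    · rw [Function.iterate_succ_apply', h4, h7]
      rw [Function.iterate_succ_apply'] at hz2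
      rw [hz2, pow_succ]
      ring

theorem Good.comp {m n : ℕ} {x y z : ℝ} (h1 : Good α β m x y) (h2 : Good α β n y z) :
    Good α β (m + n) x z := by
  refine ⟨?_, ?_⟩
  · intro i hi
    rcases Nat.lt_or_ge i m with h3 | h3
    · exact h1.1 i h3
    · obtain ⟨j, rfl⟩ := Nat.exists_eq_add_of_le h3
      rw [add_comm, Function.iterate_add_apply, h1.2]
      exact h2.1 j (by omega)
  · rw [add_comm, Function.iterate_add_apply, h1.2]
    exact h2.2

theorem mem_iter (n : ℕ) (U : Set ℝ) (y : ℝ) :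
    y ∈ (Fi α β)^[n] U ↔ ∃ t ∈ U, Good α β n t y := by
  induction n generalizing y with
  | zero =>
    constructor
    · intro h
      exact ⟨y, h, fun i hi => absurd hi (Nat.not_lt_zero _), rfl⟩
    · rintro ⟨t, ht, _, h2⟩
      have : t = y := h2
      rw [← this]
      exact ht
  | succ n ih =>
    rw [Function.iterate_succ_apply']
    constructor
    · rintro ⟨x, ⟨hx1, hx2⟩, rfl⟩
      obtain ⟨t, ht, h1, h2⟩ := (ih x).mp hx1
      refine ⟨t, ht, ?_, ?_⟩
      · intro i hi
        rcases Nat.lt_succ_iff_lt_or_eq.mp hi with h8 | rfl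
        · exact h1 i h8
        · rw [h2]
          exact hx2
      · rw [Function.iterate_succ_apply', h2]
    · rintro ⟨t, ht, h1, h2⟩
      rw [Function.iterate_succ_apply'] at h2
      refine ⟨(F α β)^[n] t, ⟨(ih _).mpr ⟨t, ht, fun i hi => h1 i (by omega), rfl⟩,
        h1 n (Nat.lt_succ_self n)⟩, h2⟩

theorem Fi_open (h : Par α β) {U : Set ℝ} (hU : IsOpen U) : IsOpen (Fi α β U) := by
  have hb := h.b1
  rw [Metric.isOpen_iff]
  rintro y ⟨x, ⟨hx1, hx2⟩, rfl⟩
  obtain ⟨e1, he1, h1⟩ := Metric.isOpen_iff.mp hU x hx1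
  obtain ⟨e2, he2, h2⟩ := F_local h hx2
  refine ⟨β * min e1 e2, mul_pos (by linarith) (lt_min he1 he2), ?_⟩
  intro w hw
  rw [Metric.mem_ball, Real.dist_eq] at hw
  have h3 : |x + (w - F α β x) / β - x| < min e1 e2 := by
    rw [add_sub_cancel_left, abs_div, abs_of_pos (by linarith : (0 : ℝ) < β),
      div_lt_iff₀ (by linarith)]
    linarith [mul_comm (min e1 e2) β]
  obtain ⟨h4, h5⟩ := h2 _ (h3.trans_le (min_le_right _ _))
  refine ⟨x + (w - F α β x) / β, ⟨h1 ?_, h4⟩, ?_⟩
  · rw [Metric.mem_ball, Real.dist_eq]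
    exact h3.trans_le (min_le_left _ _)
  · rw [h5]
    field_simp
    ring

theorem iter_open (h : Par α β) {U : Set ℝ} (hU : IsOpen U) (n : ℕ) :
    IsOpen ((Fi α β)^[n] U) := by
  induction n with
  | zero => exact hU
  | succ n ih =>
    rw [Function.iterate_succ_apply']
    exact Fi_open h ih

theorem Fi_sub (h : Par α β) (U : Set ℝ) : Fi α β U ⊆ Ioo 0 1 := by
  rintro y ⟨x, ⟨_, hx2⟩, rfl⟩
  exact F_mem h hx2

theorem iter_sub (h : Par α β) {U : Set ℝ} (hU : U ⊆ Ioo 0 1) (n : ℕ) :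
    (Fi α β)^[n] U ⊆ Ioo 0 1 := by
  induction n with
  | zero => exact hU
  | succ n ih =>
    rw [Function.iterate_succ_apply']
    exact Fi_sub h _

end Pool.Agent.R241.CE
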