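import Pool.Agent.R241.CE.C1

/-!
# MP_ce4ed9_an, part 2: a periodic point avoiding the discontinuity
-/

namespace Pool.Agent.R241.CE

open Set

variable {α β : ℝ}

/-- The induction state. -/
structure St (α β x y : ℝ) (m n : ℕ) : Prop where
  x0 : 0 < x
  y0 : 0 < y
  m1 : 1 ≤ m
  n1 : 1 ≤ n
  hl : ∀ u, 0 < u → u < x → Good α β m (cc α β - u) (cc α β + (y - β ^ m * u))
  hr : ∀ v, 0 < v → v < y → Good α β n (cc α β + v) (cc α β - (x - β ^ n * v))

theorem st_start (h : Par α β) : St α β (cc α β) (1 - cc α β) 1 1 := by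
  have hc0 := c_pos h
  have hc1 := c_lt h
  refine ⟨hc0, by linarith, le_rfl, le_rfl, ?_, ?_⟩
  · intro u hu0 hu
    refine ⟨?_, ?_⟩
    · intro i hi
      have : i = 0 := by omega
      subst this
      exact ⟨by simpa using hu, by simp only [Function.iterate_zero, id]; linarith,
        by simp only [Function.iterate_zero, id]; linarith⟩
    · rw [Function.iterate_one, F_left_c h (by linarith)]
      ring
  · intro v hv0 hv
    refine ⟨?_, ?_⟩
    · intro i hi
      have : i = 0 := by omega
      subst this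
      exact ⟨by simp only [Function.iterate_zero, id]; linarith,
        by simp only [Function.iterate_zero, id]; linarith,
        by simp only [Function.iterate_zero, id]; linarith⟩
    · rw [Function.iterate_one, F_right_c h (by linarith)]
      ring

theorem case1 (h : Par α β) {x y : ℝ} {m n : ℕ} (hs : St α β x y m n)
    (h1 : x + y < β ^ m * x) : ∃ N z, 1 ≤ N ∧ Good α β N z z := by
  have hb := h.b1
  have hx := hs.x0
  have hy := hs.y0
  have hp : 1 < β ^ m := one_lt_pow₀ hb (by have := hs.m1; omega)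
  have hp' : 0 < β ^ m - 1 := by linarith
  have e1 : y / (β ^ m - 1) < x := by
    rw [div_lt_iff₀ hp']
    nlinarith
  refine ⟨m, cc α β - y / (β ^ m - 1), hs.m1, ?_⟩
  have := hs.hl (y / (β ^ m - 1)) (by positivity) e1
  convert this using 1
  field_simp
  ring

theorem case2 (h : Par α β) {x y : ℝ} {m n : ℕ} (hs : St α β x y m n)
    (h1 : x + y < β ^ n * y) : ∃ N z, 1 ≤ N ∧ Good α β N z z := by
  have hb := h.b1
  have hx := hs.x0
  have hy := hs.y0
  have hp : 1 < β ^ n := one_lt_pow₀ hb (by have := hs.n1; omega)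
  have hp' : 0 < β ^ n - 1 := by linarith
  have e1 : x / (β ^ n - 1) < y := by
    rw [div_lt_iff₀ hp']
    nlinarith
  refine ⟨n, cc α β + x / (β ^ n - 1), hs.n1, ?_⟩
  have := hs.hr (x / (β ^ n - 1)) (by positivity) e1
  convert this using 1
  field_simp
  ring

theorem case3 (h : Par α β) {x y : ℝ} {m n : ℕ} (hs : St α β x y m n)
    (h1 : y < β ^ m * x) (h2 : x < β ^ n * y) : ∃ N z, 1 ≤ N ∧ Good α β N z z := by
  have hb := h.b1
  have hx := hs.x0
  have hy := hs.y0
  have hm := hs.m1
  have hp : 1 < β ^ (m + n) := one_lt_pow₀ hb (by omega)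
  have hpm : 1 < β ^ m := one_lt_pow₀ hb (by omega)
  have hp' : 0 < β ^ (m + n) - 1 := by linarith
  have hpow : β ^ (m + n) = β ^ m * β ^ n := pow_add _ _ _
  set u := (β ^ n * y - x) / (β ^ (m + n) - 1) with hu
  have hu' : u * (β ^ (m + n) - 1) = β ^ n * y - x := div_mul_cancel₀ _ hp'.ne'
  have hu0 : 0 < u := div_pos (by linarith) hp'
  have hux : u < x := by
    rw [hu, div_lt_iff₀ hp', hpow]
    have : β ^ n * y < β ^ n * (β ^ m * x) := by
      apply mul_lt_mul_of_pos_left h1
      positivity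
    nlinarith
  have hv0 : 0 < y - β ^ m * u := by
    have e1 : β ^ m * (β ^ n * y - x) < y * (β ^ (m + n) - 1) := by
      rw [hpow]
      nlinarith
    have e2 : β ^ m * u * (β ^ (m + n) - 1) < y * (β ^ (m + n) - 1) := by
      rw [mul_assoc, hu']
      exact e1
    have := lt_of_mul_lt_mul_right e2 hp'.le
    linarith
  have hvy : y - β ^ m * u < y := by
    have : 0 < β ^ m * u := by positivity
    linarith
  refine ⟨m + n, cc α β - u, by omega, ?_⟩
  have g1 := hs.hl u hu0 hux
  have g2 := hs.hr _ hv0 hvy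
  have g3 := g1.comp g2
  convert g3 using 1
  have : u = x - β ^ n * (y - β ^ m * u) := by
    have e3 : β ^ n * (y - β ^ m * u) = β ^ n * y - β ^ (m + n) * u := by
      rw [hpow]
      ring
    rw [e3]
    linarith [hu', mul_sub u (β ^ (m + n)) 1, mul_comm u (β ^ (m + n))]
  rw [← this]

theorem case4 (h : Par α β) {x y : ℝ} {m n : ℕ} (hs : St α β x y m n)
    (h1 : β ^ m * x ≤ y) (h2 : β ^ n * y ≤ x + y) :
    St α β x (β ^ n * y - x) (m + n) n := by
  have hb := h.b1
  have hx := hs.x0
  have hy := hs.y0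
  have hm := hs.m1
  have hn := hs.n1
  have hpm : 1 < β ^ m := one_lt_pow₀ hb (by omega)
  have hpn : 1 < β ^ n := one_lt_pow₀ hb (by omega)
  refine ⟨hx, by nlinarith, by omega, hn, ?_, ?_⟩
  · intro u hu0 hu
    have g1 := hs.hl u hu0 hu
    have e1 : β ^ m * u < β ^ m * x := mul_lt_mul_of_pos_left hu (by linarith)
    have e2 : 0 < β ^ m * u := by positivity
    have g2 := hs.hr (y - β ^ m * u) (by linarith) (by linarith)
    have g3 := g1.comp g2
    convert g3 using 1
    rw [pow_add]
    ring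
  · intro v hv0 hv
    exact hs.hr v hv0 (by linarith)

theorem case5 (h : Par α β) {x y : ℝ} {m n : ℕ} (hs : St α β x y m n)
    (h1 : β ^ n * y ≤ x) (h2 : β ^ m * x ≤ x + y) :
    St α β (β ^ m * x - y) y m (m + n) := by
  have hb := h.b1
  have hx := hs.x0
  have hy := hs.y0
  have hm := hs.m1
  have hn := hs.n1
  have hpm : 1 < β ^ m := one_lt_pow₀ hb (by omega)
  have hpn : 1 < β ^ n := one_lt_pow₀ hb (by omega)
  refine ⟨by nlinarith, hy, hm, by omega, ?_, ?_⟩
  · intro u hu0 hu
    exact hs.hl u hu0 (by linarith)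
  · intro v hv0 hv
    have g1 := hs.hr v hv0 hv
    have e1 : β ^ n * v < β ^ n * y := mul_lt_mul_of_pos_left hv (by linarith)
    have e2 : 0 < β ^ n * v := by positivity
    have g2 := hs.hl (x - β ^ n * v) (by linarith) (by linarith)
    have g3 := g1.comp g2
    rw [add_comm n m] at g3
    convert g3 using 1
    rw [pow_add]
    ring

theorem exists_periodic (h : Par α β) : ∃ N z, 1 ≤ N ∧ Good α β N z z := by
  have hb := h.b1
  obtain ⟨K, hK⟩ : ∃ K : ℕ, β⁻¹ + (β⁻¹) ^ K < 1 := by
    have h1 : β⁻¹ < 1 := inv_lt_one_of_one_lt₀ hb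
    obtain ⟨K, hK⟩ := exists_pow_lt_of_lt_one (by linarith : (0 : ℝ) < 1 - β⁻¹) h1
    exact ⟨K, by linarith⟩
  have hinv0 : 0 < β⁻¹ := by positivity
  have hinv1 : β⁻¹ < 1 := inv_lt_one_of_one_lt₀ hb
  -- impossibility for large m + n
  have big : ∀ (x y : ℝ) (m n : ℕ), St α β x y m n → 2 * K ≤ m + n →
      x + y < β ^ m * x ∨ x + y < β ^ n * y := by
    intro x y m n hs hmn
    by_contra hcon
    push Not at hcon
    obtain ⟨h1, h2⟩ := hcon
    have hx := hs.x0
    have hy := hs.y0
    have e1 : x ≤ (x + y) * (β⁻¹) ^ m := by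
      rw [inv_pow]
      rw [← div_eq_mul_inv, le_div_iff₀ (by positivity)]
      linarith [mul_comm x (β ^ m)]
    have e2 : y ≤ (x + y) * (β⁻¹) ^ n := by
      rw [inv_pow]
      rw [← div_eq_mul_inv, le_div_iff₀ (by positivity)]
      linarith [mul_comm y (β ^ n)]
    have e3 : 1 ≤ (β⁻¹) ^ m + (β⁻¹) ^ n := by
      have : (x + y) * 1 ≤ (x + y) * ((β⁻¹) ^ m + (β⁻¹) ^ n) := by
        rw [mul_add]
        linarith
      exact le_of_mul_le_mul_left this (by linarith)
    have e4 : (β⁻¹) ^ m + (β⁻¹) ^ n ≤ β⁻¹ + (β⁻¹) ^ K := by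
      have hm := hs.m1
      have hn := hs.n1
      have hle1 : ∀ j, 1 ≤ j → (β⁻¹) ^ j ≤ β⁻¹ := by
        intro j hj
        calc (β⁻¹) ^ j ≤ (β⁻¹) ^ 1 := pow_le_pow_of_le_one hinv0.le hinv1.le hj
          _ = β⁻¹ := pow_one _
      have hleK : ∀ j, K ≤ j → (β⁻¹) ^ j ≤ (β⁻¹) ^ K := by
        intro j hj
        exact pow_le_pow_of_le_one hinv0.le hinv1.le hj
      rcases Nat.lt_or_ge m K with h3 | h3
      · linarith [hle1 m hm, hleK n (by omega)]
      · linarith [hle1 n hn, hleK m h3]
    linarith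
  have main : ∀ (k : ℕ) (x y : ℝ) (m n : ℕ), St α β x y m n → 2 * K ≤ m + n + k →
      ∃ N z, 1 ≤ N ∧ Good α β N z z := by
    intro k
    induction k with
    | zero =>
      intro x y m n hs hmn
      rcases big x y m n hs hmn with h1 | h1
      · exact case1 h hs h1
      · exact case2 h hs h1
    | succ k ih =>
      intro x y m n hs hmn
      by_cases h1 : x + y < β ^ m * x
      · exact case1 h hs h1
      by_cases h2 : x + y < β ^ n * y
      · exact case2 h hs h2
      push Not at h1 h2
      by_cases h3 : y < β ^ m * x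
      · by_cases h4 : x < β ^ n * y
        · exact case3 h hs h3 h4
        · push Not at h4
          have := case5 h hs h4 h1
          have hm := hs.m1
          exact ih _ _ _ _ this (by omega)
      · push Not at h3
        have := case4 h hs h3 h2
        have hn := hs.n1
        exact ih _ _ _ _ this (by omega)
  exact main (2 * K) _ _ _ _ (st_start h) (by omega)

end Pool.Agent.R241.CE
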