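import Pool.Agent.R241.CE.C2

/-!
# MP_ce4ed9_an, part 3: images along residue classes of times
-/

namespace Pool.Agent.R241.CE

open Set

variable {α β : ℝ}

/-- Transitivity along the domain of continuity. -/
def TR (α β : ℝ) : Prop :=
  ∀ O V : Set ℝ, IsOpen O → IsOpen V → (O ∩ Ioo 0 1).Nonempty → (V ∩ Ioo 0 1).Nonempty →
    ∃ n, ((Fi α β)^[n] O ∩ V).Nonempty

/-- Cycles. -/
structure Cycle (α β : ℝ) (P : Set ℝ) : Prop where
  fin : P.Finite
  ne : P.Nonempty
  sub : P ⊆ D α β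
  out : ∀ x ∈ P, ¬ (α < x ∧ x < α + β - 1)
  fwd : ∀ x ∈ P, F α β x ∈ P
  bwd : ∀ x ∈ D α β, F α β x ∈ P → x ∈ P

/-- A set all of whose points lie in long intervals of the set. -/
def Fat (d : ℝ) (B : Set ℝ) : Prop :=
  ∀ s ∈ B, ∃ a b, a < s ∧ s < b ∧ d ≤ b - a ∧ Ioo a b ⊆ B

theorem fat_frontier {d : ℝ} {B : Set ℝ} (hd : 0 < d) (hB : Fat d B) {y : ℝ} (hy : y ∉ B)
    (hc : y ∈ closure B) : Ioo y (y + d) ⊆ B ∨ Ioo (y - d) y ⊆ B := by
  by_contra hcon
  push Not at hcon
  obtain ⟨h1, h2⟩ := hcon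
  rw [Set.not_subset] at h1 h2
  obtain ⟨z1, hz1, hz1'⟩ := h1
  obtain ⟨z2, hz2, hz2'⟩ := h2
  have hopen : IsOpen (Ioo z2 z1) := isOpen_Ioo
  obtain ⟨b, hb1, hb2⟩ := mem_closure_iff.mp hc (Ioo z2 z1) hopen ⟨hz2.2, hz1.1⟩
  obtain ⟨a, a', h3, h4, h5, h6⟩ := hB b hb2
  have hyb : b ≠ y := fun h => hy (h ▸ hb2)
  rcases lt_or_gt_of_ne hyb with h7 | h7
  · -- b < y
    have h8 : a' ≤ y := by
      by_contra h
      push Not at h
      exact hy (h6 ⟨by linarith, h⟩)
    have h9 : z2 ≤ a := by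
      by_contra h
      push Not at h
      exact hz2' (h6 ⟨h, by linarith [hb1.1]⟩)
    linarith [hz2.1]
  · have h8 : y ≤ a := by
      by_contra h
      push Not at h
      exact hy (h6 ⟨h, by linarith⟩)
    have h9 : a' ≤ z1 := by
      by_contra h
      push Not at h
      exact hz1' (h6 ⟨by linarith [hb1.2], h⟩)
    linarith [hz1.2]

theorem finite_sep {d : ℝ} (hd : 0 < d) {S : Set ℝ} (hS : S ⊆ Ioo 0 1)
    (hsep : ∀ x ∈ S, ∀ y ∈ S, x < y → x + d ≤ y) : S.Finite := by
  have hfin : ((fun y : ℝ => ⌊y / d⌋) '' S).Finite := by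
    apply (Set.finite_Icc (0 : ℤ) ⌊1 / d⌋).subset
    rintro _ ⟨y, hy, rfl⟩
    obtain ⟨h1, h2⟩ := hS hy
    constructor
    · exact Int.floor_nonneg.mpr (by positivity)
    · exact Int.floor_le_floor (div_le_div_of_nonneg_right h2.le hd.le)
  apply hfin.of_finite_image
  have key : ∀ x ∈ S, ∀ y ∈ S, x < y → ⌊x / d⌋ ≠ ⌊y / d⌋ := by
    intro x hx y hy hxy heq
    have h1 := hsep x hx y hy hxy
    have h2 : x / d + 1 ≤ y / d := by
      have h4 : (x + d) / d = x / d + 1 := by
        rw [add_div, div_self hd.ne']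
      rw [← h4]
      exact div_le_div_of_nonneg_right h1 hd.le
    have h3 : ⌊x / d⌋ + 1 ≤ ⌊y / d⌋ := by
      rw [← Int.floor_add_one]
      exact Int.floor_le_floor h2
    omega
  intro x hx y hy hxy
  rcases lt_trichotomy x y with h | h | h
  · exact absurd hxy (key x hx y hy h)
  · exact h
  · exact absurd hxy.symm (key y hy x hx h)

theorem fat_finite {d : ℝ} {B : Set ℝ} (hd : 0 < d) (hB : Fat d B) :
    {y | y ∈ Ioo (0 : ℝ) 1 ∧ y ∉ B ∧ y ∈ closure B}.Finite := by
  have h1 : {y | y ∈ Ioo (0 : ℝ) 1 ∧ y ∉ B ∧ Ioo y (y + d) ⊆ B}.Finite := by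
    apply finite_sep hd (fun y hy => hy.1)
    intro x hx y hy hxy
    by_contra h
    push Not at h
    exact hy.2.1 (hx.2.2 ⟨hxy, h⟩)
  have h2 : {y | y ∈ Ioo (0 : ℝ) 1 ∧ y ∉ B ∧ Ioo (y - d) y ⊆ B}.Finite := by
    apply finite_sep hd (fun y hy => hy.1)
    intro x hx y hy hxy
    by_contra h
    push Not at h
    exact hx.2.1 (hy.2.2 ⟨by linarith, hxy⟩)
  apply (h1.union h2).subset
  rintro y ⟨hy1, hy2, hy3⟩
  rcases fat_frontier hd hB hy2 hy3 with h | h
  · exact Or.inl ⟨hy1, hy2, h⟩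
  · exact Or.inr ⟨hy1, hy2, h⟩

section Main

variable {N : ℕ} [NeZero N] {U : Set ℝ}

/-- The union of the images of `U` at the times in a residue class. -/
def BB (α β : ℝ) (N : ℕ) (U : Set ℝ) (i : ZMod N) : Set ℝ :=
  {y | ∃ n : ℕ, (n : ZMod N) = i ∧ y ∈ (Fi α β)^[n] U}

omit [NeZero N] in
theorem BB_open (h : Par α β) (hU : IsOpen U) (i : ZMod N) : IsOpen (BB α β N U i) := by
  have : BB α β N U i = ⋃ n : {n : ℕ // (n : ZMod N) = i}, (Fi α β)^[n.1] U := by
    ext y
    simp only [BB, mem_ofPred_eq, mem_iUnion, Subtype.exists]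
    constructor
    · rintro ⟨n, h1, h2⟩
      exact ⟨n, h1, h2⟩
    · rintro ⟨n, h1, h2⟩
      exact ⟨n, h1, h2⟩
  rw [this]
  exact isOpen_iUnion fun n => iter_open h hU _

omit [NeZero N] in
theorem BB_sub (h : Par α β) (hU : U ⊆ Ioo 0 1) (i : ZMod N) : BB α β N U i ⊆ Ioo 0 1 := by
  rintro y ⟨n, _, hy⟩
  exact iter_sub h hU n hy

omit [NeZero N] in
theorem BB_step {x : ℝ} {i : ZMod N} (hx : x ∈ BB α β N U i) (hD : x ∈ D α β) :
    F α β x ∈ BB α β N U (i + 1) := by
  obtain ⟨n, h1, h2⟩ := hx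
  refine ⟨n + 1, by push_cast; rw [h1], ?_⟩
  rw [Function.iterate_succ_apply']
  exact ⟨x, ⟨h2, hD⟩, rfl⟩

theorem BB_fat (h : Par α β) {u v : ℝ} (huv : u < v) (hU : Ioo u v ⊆ Ioo 0 1) :
    ∃ d > 0, ∀ i : ZMod N, Fat d (BB α β N (Ioo u v) i) := by
  have hb := h.b1
  have h1 : ∀ i : ZMod N, ∃ d : ℝ, 0 < d ∧ (cc α β ∈ BB α β N (Ioo u v) i →
      Ioo (cc α β - d) (cc α β + d) ⊆ BB α β N (Ioo u v) i) := by
    intro i
    by_cases hc : cc α β ∈ BB α β N (Ioo u v) i
    · obtain ⟨e, he, h2⟩ := Metric.isOpen_iff.mp (BB_open h isOpen_Ioo i) _ hc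
      refine ⟨e, he, fun _ => ?_⟩
      rw [← Real.ball_eq_Ioo]
      exact h2
    · exact ⟨1, one_pos, fun h => absurd h hc⟩
  choose df hdf0 hdf using h1
  obtain ⟨i0, hi0⟩ := Finite.exists_min df
  set d := min (df i0) (v - u) with hd
  have hd0 : 0 < d := lt_min (hdf0 i0) (by linarith)
  have hdc : ∀ i : ZMod N, cc α β ∈ BB α β N (Ioo u v) i →
      Ioo (cc α β - d) (cc α β + d) ⊆ BB α β N (Ioo u v) i := by
    intro i hi
    refine Subset.trans ?_ (hdf i hi)
    have : d ≤ df i := (min_le_left _ _).trans (hi0 i)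
    apply Ioo_subset_Ioo <;> linarith
  refine ⟨d, hd0, ?_⟩
  have key : ∀ n : ℕ, ∀ s ∈ (Fi α β)^[n] (Ioo u v), ∃ a b, a < s ∧ s < b ∧ d ≤ b - a ∧
      Ioo a b ⊆ BB α β N (Ioo u v) (n : ZMod N) := by
    intro n
    induction n with
    | zero =>
      intro s hs
      exact ⟨u, v, hs.1, hs.2, min_le_right _ _, fun x hx => ⟨0, rfl, hx⟩⟩
    | succ n ih =>
      intro s hs
      rw [Function.iterate_succ_apply'] at hs
      obtain ⟨t, ⟨ht1, ht2⟩, rfl⟩ := hs
      obtain ⟨a, b, h2, h3, h4, h5⟩ := ih t ht1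
      have hpush : ∀ a' b', a' < t → t < b' → d ≤ b' - a' →
          Ioo a' b' ⊆ BB α β N (Ioo u v) (n : ZMod N) → (b' ≤ cc α β ∨ cc α β ≤ a') →
          ∃ a b, a < F α β t ∧ F α β t < b ∧ d ≤ b - a ∧
            Ioo a b ⊆ BB α β N (Ioo u v) ((n + 1 : ℕ) : ZMod N) := by
        intro a' b' g1 g2 g3 g4 g5
        have hsubD : Ioo a' b' ⊆ D α β := by
          intro x hx
          have := BB_sub h hU _ (g4 hx)
          refine ⟨this.1, this.2, ?_⟩
          rcases g5 with g5 | g5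
          · have := hx.2
            exact (lt_of_lt_of_le this g5).ne
          · have := hx.1
            exact (lt_of_le_of_lt g5 this).ne'
        have hF : ∀ x ∈ Ioo a' b', F α β x = F α β t + β * (x - t) := by
          intro x hx
          rcases g5 with g5 | g5
          · rw [F_left (lt_of_lt_of_le hx.2 g5), F_left (lt_of_lt_of_le g2 g5)]
            ring
          · rw [F_right (lt_of_le_of_lt g5 hx.1).le, F_right (lt_of_le_of_lt g5 g1).le]
            ring
        refine ⟨F α β t - β * (t - a'), F α β t + β * (b' - t), ?_, ?_, ?_, ?_⟩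
        · nlinarith
        · nlinarith
        · nlinarith
        · intro w hw
          have hx : t + (w - F α β t) / β ∈ Ioo a' b' := by
            constructor
            · have : -(t - a') < (w - F α β t) / β := by
                rw [lt_div_iff₀ (by linarith)]
                linarith [hw.1, mul_comm (t - a') β]
              linarith
            · have : (w - F α β t) / β < b' - t := by
                rw [div_lt_iff₀ (by linarith)]
                linarith [hw.2, mul_comm (b' - t) β]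
              linarith
          have h6 := BB_step (g4 hx) (hsubD hx)
          have h7 : F α β (t + (w - F α β t) / β) = w := by
            rw [hF _ hx]
            field_simp
            ring
          rw [h7] at h6
          push_cast
          exact h6
      by_cases hc : a < cc α β ∧ cc α β < b
      · have hcB := h5 hc
        have hwide := hdc _ hcB
        have hall : Ioo (min a (cc α β - d)) (max b (cc α β + d)) ⊆
            BB α β N (Ioo u v) (n : ZMod N) := by
          intro x hx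
          by_cases hx1 : a < x ∧ x < b
          · exact h5 hx1
          · apply hwide
            rw [not_and_or, not_lt, not_lt] at hx1
            rcases hx1 with hx1 | hx1
            · constructor
              · rcases min_lt_iff.mp hx.1 with h6 | h6
                · linarith
                · exact h6
              · linarith
            · constructor
              · linarith
              · rcases lt_max_iff.mp hx.2 with h6 | h6
                · linarith
                · exact h6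
        have hmin := min_le_right a (cc α β - d)
        have hmin' := min_le_left a (cc α β - d)
        have hmax := le_max_right b (cc α β + d)
        have hmax' := le_max_left b (cc α β + d)
        rcases lt_or_gt_of_ne ht2.2.2 with htc | htc
        · apply hpush (min a (cc α β - d)) (cc α β) (by linarith) htc (by linarith) _ (Or.inl le_rfl)
          exact Subset.trans (Ioo_subset_Ioo le_rfl (by linarith [hc.2])) hall
        · apply hpush (cc α β) (max b (cc α β + d)) htc (by linarith) (by linarith) _ (Or.inr le_rfl)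
          exact Subset.trans (Ioo_subset_Ioo (by linarith [hc.1]) le_rfl) hall
      · rw [not_and_or, not_lt, not_lt] at hc
        exact hpush a b h2 h3 h4 h5 hc.symm
  rintro i s ⟨n, rfl, hs⟩
  exact key n s hs

/-- The frontier points. -/
def Fr (α β : ℝ) (N : ℕ) (U : Set ℝ) (i : ZMod N) : Set ℝ :=
  {y | y ∈ Ioo (0 : ℝ) 1 ∧ y ∉ BB α β N U i ∧ y ∈ closure (BB α β N U i)}

open Classical in
/-- The residue classes whose images contain `x`. -/
noncomputable def AA (α β : ℝ) (N : ℕ) [NeZero N] (U : Set ℝ) (x : ℝ) : Finset (ZMod N) :=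
  Finset.univ.filter fun i => x ∈ BB α β N U i

theorem mem_AA {x : ℝ} {i : ZMod N} : i ∈ AA α β N U x ↔ x ∈ BB α β N U i := by
  simp [AA]

theorem AA_step {x : ℝ} (hD : x ∈ D α β) :
    (AA α β N U x).image (fun i => i + 1) ⊆ AA α β N U (F α β x) := by
  intro j hj
  obtain ⟨i, hi, rfl⟩ := Finset.mem_image.mp hj
  rw [mem_AA] at hi ⊢
  exact BB_step hi hD

theorem AA_card {x : ℝ} :
    ((AA α β N U x).image (fun i => i + 1)).card = (AA α β N U x).card :=
  Finset.card_image_of_injective _ (add_left_injective 1)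

/-- The pull-back property of the frontier. -/
theorem frontier_pull (h : Par α β) (htr : TR α β) (hU : IsOpen U)
    {y : ℝ} {i : ZMod N} (hy : y ∈ D α β) (hFy : F α β y ∈ Fr α β N U (i + 1)) :
    y ∈ Fr α β N U i := by
  classical
  have hb := h.b1
  -- maximal cardinality
  obtain ⟨x0, hx0, hmax⟩ : ∃ x0 ∈ Ioo (0 : ℝ) 1, ∀ x ∈ Ioo (0 : ℝ) 1,
      (AA α β N U x).card ≤ (AA α β N U x0).card := by
    have hne : ((fun x => (AA α β N U x).card) '' Ioo (0 : ℝ) 1).Nonempty :=
      ⟨_, 1 / 2, by norm_num, rfl⟩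
    have hbd : BddAbove ((fun x => (AA α β N U x).card) '' Ioo (0 : ℝ) 1) := by
      refine ⟨Fintype.card (ZMod N), ?_⟩
      rintro _ ⟨x, _, rfl⟩
      exact Finset.card_le_univ _
    obtain ⟨x0, hx0, he⟩ := Nat.sSup_mem hne hbd
    refine ⟨x0, hx0, fun x hx => ?_⟩
    have h2 : (AA α β N U x0).card = sSup ((fun x => (AA α β N U x).card) '' Ioo (0 : ℝ) 1) := he
    rw [h2]
    exact le_csSup hbd ⟨x, hx, rfl⟩
  set M := (AA α β N U x0).card with hM
  set O : Set ℝ := {x | x ∈ Ioo (0 : ℝ) 1 ∧ (AA α β N U x).card = M} with hO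
  have hOopen : IsOpen O := by
    rw [isOpen_iff_forall_mem_open]
    rintro x ⟨hx1, hx2⟩
    refine ⟨Ioo 0 1 ∩ ⋂ i ∈ AA α β N U x, BB α β N U i, ?_, ?_, ?_⟩
    · rintro z ⟨hz1, hz2⟩
      refine ⟨hz1, le_antisymm (hmax z hz1) ?_⟩
      rw [← hx2]
      apply Finset.card_le_card
      intro j hj
      rw [mem_AA]
      rw [mem_iInter₂] at hz2
      exact hz2 j hj
    · exact isOpen_Ioo.inter (isOpen_biInter_finset fun i _ => BB_open h hU i)
    · refine ⟨hx1, ?_⟩
      rw [mem_iInter₂]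
      intro j hj
      exact mem_AA.mp hj
  have hOF : Fi α β O ⊆ O := by
    rintro _ ⟨x, ⟨⟨hx1, hx2⟩, hx3⟩, rfl⟩
    have h1 := F_mem h hx3
    refine ⟨h1, le_antisymm (hmax _ h1) ?_⟩
    rw [← hx2, ← AA_card]
    exact Finset.card_le_card (AA_step hx3)
  have hOit : ∀ n, (Fi α β)^[n] O ⊆ O := by
    intro n
    induction n with
    | zero => exact Subset.rfl
    | succ n ih =>
      rw [Function.iterate_succ_apply']
      refine Subset.trans ?_ hOF
      exact image_mono (inter_subset_inter_left _ ih)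
  have hdense : ∀ V : Set ℝ, IsOpen V → (V ∩ Ioo 0 1).Nonempty → (O ∩ V).Nonempty := by
    intro V hV hne
    obtain ⟨n, w, hw1, hw2⟩ := htr O V hOopen hV ⟨x0, ⟨hx0, rfl⟩, hx0⟩ hne
    exact ⟨w, hOit n hw1, hw2⟩
  have hback : ∀ v ∈ O, v ∈ D α β → ∀ i : ZMod N, F α β v ∈ BB α β N U (i + 1) →
      v ∈ BB α β N U i := by
    rintro v ⟨hv1, hv2⟩ hvD i hi
    have h1 : (AA α β N U v).image (fun i => i + 1) = AA α β N U (F α β v) := by
      apply Finset.eq_of_subset_of_card_le (AA_step hvD)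
      rw [AA_card, hv2]
      exact hmax _ (F_mem h hvD)
    have h2 : i + 1 ∈ AA α β N U (F α β v) := mem_AA.mpr hi
    rw [← h1] at h2
    obtain ⟨j, hj, hji⟩ := Finset.mem_image.mp h2
    have : j = i := add_right_cancel hji
    rw [← this]
    exact mem_AA.mp hj
  obtain ⟨h1, h2, h3⟩ := hFy
  refine ⟨⟨hy.1, hy.2.1⟩, fun hyB => h2 (BB_step hyB hy), ?_⟩
  rw [Metric.mem_closure_iff] at h3 ⊢
  intro ε hε
  obtain ⟨e, he, hloc⟩ := F_local h hy
  set δ := min ε e with hδ
  have hδ0 : 0 < δ := lt_min hε he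
  obtain ⟨w, hw1, hw2⟩ := h3 (β * δ) (mul_pos (by linarith) hδ0)
  rw [dist_comm, Real.dist_eq] at hw2
  have ht : |y + (w - F α β y) / β - y| < δ := by
    rw [add_sub_cancel_left, abs_div, abs_of_pos (by linarith : (0 : ℝ) < β),
      div_lt_iff₀ (by linarith)]
    linarith [mul_comm δ β]
  set V : Set ℝ := {t | |t - y| < δ ∧ F α β y + β * (t - y) ∈ BB α β N U (i + 1)} with hV
  have hVopen : IsOpen V := by
    apply IsOpen.inter
    · have hc1 : Continuous fun t : ℝ => |t - y| := by fun_prop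
      exact isOpen_lt hc1 continuous_const
    · have hcont : Continuous fun t : ℝ => F α β y + β * (t - y) := by fun_prop
      exact (BB_open h hU (i + 1)).preimage hcont
  have hVne : (V ∩ Ioo 0 1).Nonempty := by
    refine ⟨y + (w - F α β y) / β, ⟨ht, ?_⟩, ?_⟩
    · have : F α β y + β * (y + (w - F α β y) / β - y) = w := by
        field_simp
        ring
      rw [this]
      exact hw1
    · have := (hloc _ (ht.trans_le (min_le_right _ _))).1
      exact ⟨this.1, this.2.1⟩
  obtain ⟨v, hv1, hv2, hv3⟩ := hdense V hVopen hVne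
  obtain ⟨h4, h5⟩ := hloc v (hv2.trans_le (min_le_right _ _))
  refine ⟨v, hback v hv1 h4 i ?_, ?_⟩
  · rw [h5]
    exact hv3
  · rw [dist_comm, Real.dist_eq]
    exact hv2.trans_le (min_le_left _ _)

/-- The section of `F`. -/
noncomputable def gg (α β x : ℝ) : ℝ := if α < x then p0 α β x else p1 α β x

theorem gg_D (h : Par α β) {x : ℝ} (hx : x ∈ Ioo (0 : ℝ) 1) : gg α β x ∈ D α β := by
  have hb := h.b1
  rw [gg]
  split_ifs with h1
  · exact p0_D h h1 hx.2
  · exact p1_D h hx.1 (by linarith)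

theorem F_gg (h : Par α β) {x : ℝ} (hx : x ∈ Ioo (0 : ℝ) 1) : F α β (gg α β x) = x := by
  rw [gg]
  split_ifs with h1
  · exact F_p0 h hx.2
  · exact F_p1 h hx.1

/-- The main covering property. -/
theorem cover (h : Par α β) (htr : TR α β) (hcyc : ¬ ∃ P, Cycle α β P) {u v : ℝ} (huv : u < v)
    (hU : Ioo u v ⊆ Ioo 0 1) (N : ℕ) (hN : 1 ≤ N) :
    ∀ y ∈ Ioo (0 : ℝ) 1, ∃ k : ℕ, y ∈ (Fi α β)^[k * N] (Ioo u v) := by
  have : NeZero N := ⟨by omega⟩
  obtain ⟨d, hd, hfat⟩ := BB_fat (N := N) h huv hU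
  set Δ : Set ℝ := ⋃ i : ZMod N, Fr α β N (Ioo u v) i with hΔ
  have hfin : Δ.Finite := Set.finite_iUnion fun i => fat_finite hd (hfat i)
  have hsub : Δ ⊆ Ioo 0 1 := by
    intro y hy
    obtain ⟨i, hi⟩ := mem_iUnion.mp hy
    exact hi.1
  have hbwd : ∀ x ∈ D α β, F α β x ∈ Δ → x ∈ Δ := by
    intro x hx hF
    obtain ⟨j, hj⟩ := mem_iUnion.mp hF
    have hj' : F α β x ∈ Fr α β N (Ioo u v) ((j - 1) + 1) := by
      rw [sub_add_cancel]
      exact hj
    exact mem_iUnion.mpr ⟨j - 1, frontier_pull h htr isOpen_Ioo hx hj'⟩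
  have hg : ∀ x ∈ Δ, gg α β x ∈ Δ := by
    intro x hx
    apply hbwd _ (gg_D h (hsub hx))
    rw [F_gg h (hsub hx)]
    exact hx
  have hinj : InjOn (gg α β) Δ := by
    intro x hx y hy hxy
    rw [← F_gg h (hsub hx), ← F_gg h (hsub hy), hxy]
  have himg : gg α β '' Δ = Δ := by
    apply Set.eq_of_subset_of_ncard_le _ _ hfin
    · rintro _ ⟨x, hx, rfl⟩
      exact hg x hx
    · rw [hinj.ncard_image]
  have hempty : Δ = ∅ := by
    by_contra hne
    apply hcyc
    refine ⟨Δ, hfin, Set.nonempty_iff_ne_empty.mpr hne, ?_, ?_, ?_, hbwd⟩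
    · intro x hx
      rw [← himg] at hx
      obtain ⟨y, hy, rfl⟩ := hx
      exact gg_D h (hsub hy)
    · rintro x hx ⟨h1, h2⟩
      have hx1 := hsub hx
      have h3 : p1 α β x ∈ Δ := by
        apply hbwd _ (p1_D h hx1.1 h2)
        rw [F_p1 h hx1.1]
        exact hx
      rw [← himg] at h3
      obtain ⟨w, hw, hwe⟩ := h3
      have h4 : w = x := by
        rw [← F_gg h (hsub hw), hwe, F_p1 h hx1.1]
      rw [h4, gg, if_pos h1] at hwe
      have h5 := p0_lt h hx1.2
      have h6 := p1_gt h hx1.1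
      linarith
    · intro x hx
      rw [← himg] at hx
      obtain ⟨y, hy, rfl⟩ := hx
      rw [F_gg h (hsub hy)]
      exact hy
  have hall : Ioo (0 : ℝ) 1 ⊆ BB α β N (Ioo u v) 0 := by
    apply isPreconnected_Ioo.subset_of_closure_inter_subset (BB_open h isOpen_Ioo 0)
    · refine ⟨(u + v) / 2, hU ⟨by linarith, by linarith⟩, 0, by simp, ?_⟩
      exact ⟨by linarith, by linarith⟩
    · rintro y ⟨hy1, hy2⟩
      by_contra hy3
      have : y ∈ Δ := mem_iUnion.mpr ⟨0, hy2, hy3, hy1⟩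
      rw [hempty] at this
      exact this
  intro y hy
  obtain ⟨n, hn1, hn2⟩ := hall hy
  rw [ZMod.natCast_eq_zero_iff] at hn1
  obtain ⟨k, rfl⟩ := hn1
  exact ⟨k, by rw [mul_comm]; exact hn2⟩

end Main

end Pool.Agent.R241.CE
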