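import Pool.Agent.R241.CE.C3

/-!
# MP_ce4ed9_an, part 4: locally eventually onto without cycles
-/

namespace Pool.Agent.R241.CE

open Set

variable {α β : ℝ}

theorem iter_mono {U V : Set ℝ} (hUV : U ⊆ V) (n : ℕ) :
    (Fi α β)^[n] U ⊆ (Fi α β)^[n] V := by
  intro y hy
  rw [mem_iter] at hy ⊢
  obtain ⟨t, ht, h⟩ := hy
  exact ⟨t, hUV ht, h⟩

/-- Locally eventually onto on intervals. -/
theorem leo (h : Par α β) (htr : TR α β) (hcyc : ¬ ∃ P, Cycle α β P) {u v : ℝ} (huv : u < v)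
    (hU : Ioo u v ⊆ Ioo 0 1) :
    ∃ n, 1 ≤ n ∧ ∀ y ∈ Ico (0 : ℝ) 1, ∃ x ∈ Ioo u v, (F α β)^[n] x = y := by
  have hb := h.b1
  have ha := h.a0
  have hc0 := c_pos h
  have hc1 := c_lt h
  have hbc := bc h
  obtain ⟨N, z, hN, hz⟩ := exists_periodic h
  have hzD : z ∈ D α β := hz.1 0 (by omega)
  have hz0 := hzD.1
  have hz1 := hzD.2.1
  obtain ⟨k, hk⟩ := cover h htr hcyc huv hU 1 le_rfl z ⟨hz0, hz1⟩
  obtain ⟨e1, he1, h1⟩ := Metric.isOpen_iff.mp (iter_open h isOpen_Ioo (k * 1)) z hk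
  obtain ⟨e2, he2, h2⟩ := pert2 h hz
  set r := min e1 (min e2 (min z (1 - z))) with hr
  have hr0 : 0 < r := lt_min he1 (lt_min he2 (lt_min hz0 (by linarith)))
  have hr1 : r ≤ e1 := min_le_left _ _
  have hr2 : r ≤ e2 := (min_le_right _ _).trans (min_le_left _ _)
  have hr3 : r ≤ z := (min_le_right _ _).trans ((min_le_right _ _).trans (min_le_left _ _))
  have hr4 : r ≤ 1 - z := (min_le_right _ _).trans ((min_le_right _ _).trans (min_le_right _ _))
  have hJ : Ioo (z - r) (z + r) ⊆ Ioo 0 1 := Ioo_subset_Ioo (by linarith) (by linarith)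
  have hp : 1 < β ^ N := one_lt_pow₀ hb (by omega)
  have hJN : Ioo (z - r) (z + r) ⊆ (Fi α β)^[N] (Ioo (z - r) (z + r)) := by
    intro w hw
    rw [mem_iter]
    have hw' : |w - z| < r := by
      rw [abs_lt]
      exact ⟨by linarith [hw.1], by linarith [hw.2]⟩
    have ht : |z + (w - z) / β ^ N - z| < r := by
      rw [add_sub_cancel_left, abs_div, abs_of_pos (by linarith : (0 : ℝ) < β ^ N)]
      refine lt_of_le_of_lt ?_ hw'
      exact div_le_self (abs_nonneg _) hp.le
    refine ⟨z + (w - z) / β ^ N, ?_, ?_⟩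
    · rw [abs_lt] at ht
      exact ⟨by linarith, by linarith⟩
    · have := h2 _ (ht.trans_le hr2)
      convert this using 1
      field_simp
      ring
  have hmono : ∀ m : ℕ, (Fi α β)^[m * N] (Ioo (z - r) (z + r)) ⊆
      (Fi α β)^[(m + 1) * N] (Ioo (z - r) (z + r)) := by
    intro m
    rw [add_mul, one_mul, Function.iterate_add_apply]
    exact iter_mono hJN _
  obtain ⟨e, he0, he1', he2', he3⟩ : ∃ e : ℝ, 0 < e ∧ 2 * β * e ≤ β - 1 ∧ e < cc α β ∧
      cc α β < 1 - e := by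
    refine ⟨min ((β - 1) / (2 * β)) (min (cc α β / 2) ((1 - cc α β) / 2)), ?_, ?_, ?_, ?_⟩
    · apply lt_min
      · apply div_pos <;> linarith
      · apply lt_min <;> linarith
    · have := min_le_left ((β - 1) / (2 * β)) (min (cc α β / 2) ((1 - cc α β) / 2))
      calc 2 * β * _ ≤ 2 * β * ((β - 1) / (2 * β)) := by
            apply mul_le_mul_of_nonneg_left this
            linarith
        _ = β - 1 := by field_simp
    · have := (min_le_right ((β - 1) / (2 * β)) (min (cc α β / 2) ((1 - cc α β) / 2))).trans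
        (min_le_left _ _)
      linarith
    · have := (min_le_right ((β - 1) / (2 * β)) (min (cc α β / 2) ((1 - cc α β) / 2))).trans
        (min_le_right _ _)
      linarith
  obtain ⟨K, hK⟩ : ∃ K : ℕ, Icc e (1 - e) ⊆ (Fi α β)^[K * N] (Ioo (z - r) (z + r)) := by
    apply isCompact_Icc.elim_directed_cover
    · intro m
      exact iter_open h isOpen_Ioo _
    · intro y hy
      obtain ⟨m, hm⟩ := cover h htr hcyc (by linarith : z - r < z + r) hJ N hN y
        ⟨by linarith [hy.1], by linarith [hy.2]⟩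
      exact mem_iUnion.mpr ⟨m, hm⟩
    · exact (monotone_nat_of_le_succ hmono).directed_le
  refine ⟨k * 1 + K * N + 1, by omega, ?_⟩
  intro y hy
  have hx : ∃ x ∈ Icc e (1 - e), F α β x = y := by
    by_cases hy1 : α + β * e ≤ y
    · refine ⟨p0 α β y, ⟨?_, ?_⟩, F_p0 h hy.2⟩
      · rw [p0, le_div_iff₀ (by linarith)]
        linarith [mul_comm e β]
      · linarith [p0_lt h hy.2]
    · push Not at hy1
      have h3 : cc α β ≤ (y + 1 - α) / β := by
        rw [cc]
        apply div_le_div_of_nonneg_right _ (by linarith)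
        linarith [hy.1]
      refine ⟨(y + 1 - α) / β, ⟨by linarith, ?_⟩, ?_⟩
      · rw [div_le_iff₀ (by linarith)]
        linarith
      · rw [F_right h3]
        field_simp
        ring
  obtain ⟨x, hx1, hx2⟩ := hx
  obtain ⟨t, ht1, ht2⟩ := (mem_iter _ _ _).mp (hK hx1)
  have ht3 : t ∈ (Fi α β)^[k * 1] (Ioo u v) := by
    apply h1
    rw [Real.ball_eq_Ioo]
    exact ⟨by linarith [ht1.1], by linarith [ht1.2]⟩
  obtain ⟨s, hs1, hs2⟩ := (mem_iter _ _ _).mp ht3
  refine ⟨s, hs1, ?_⟩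
  rw [Function.iterate_succ_apply', (hs2.comp ht2).2]
  exact hx2

end Pool.Agent.R241.CE
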