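import Pool.Agent.R241.CE.C4

/-!
# MP_ce4ed9_an, part 5: cycles and transitivity
-/

namespace Pool.Agent.R241.CE

open Set

variable {α β : ℝ}

/-- The digit polynomials. -/
noncomputable def pe : List Bool → ℝ → ℝ
  | [], _ => 0
  | e :: L, b => b * pe L b + (if e then 1 else 0)

theorem itinerary (_h : Par α β) (n : ℕ) (x : ℝ) : ∃ L : List Bool,
    (β - 1) * (F α β)^[n] x = (β - 1) * β ^ n * x + α * (β ^ n - 1) - (β - 1) * pe L β := by
  induction n with
  | zero => exact ⟨[], by simp [pe]⟩
  | succ n ih =>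
    obtain ⟨L, hL⟩ := ih
    rw [Function.iterate_succ_apply']
    rcases lt_or_ge ((F α β)^[n] x) (cc α β) with hc | hc
    · refine ⟨false :: L, ?_⟩
      rw [F_left hc, pe]
      simp only [Bool.false_eq_true, if_false]
      have : (β - 1) * (β * (F α β)^[n] x + α) = β * ((β - 1) * (F α β)^[n] x) + (β - 1) * α := by
        ring
      rw [this, hL]
      ring
    · refine ⟨true :: L, ?_⟩
      rw [F_right hc, pe]
      simp only [if_true]
      have : (β - 1) * (β * (F α β)^[n] x + α - 1) =
          β * ((β - 1) * (F α β)^[n] x) + (β - 1) * α - (β - 1) := by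
        ring
      rw [this, hL]
      ring

theorem iter_P {P : Set ℝ} (hP : Cycle α β P) {x : ℝ} (hx : x ∈ P) (n : ℕ) :
    (F α β)^[n] x ∈ P := by
  induction n with
  | zero => exact hx
  | succ n ih =>
    rw [Function.iterate_succ_apply']
    exact hP.fwd _ ih

/-- The state of the gap iteration. -/
structure Gap (α β : ℝ) (P : Set ℝ) (a b : ℝ) (i : ℕ) : Prop where
  len : (F α β)^[i] b = (F α β)^[i] a + β ^ i * (b - a)
  free : ∀ y ∈ P, ¬ ((F α β)^[i] a < y ∧ y < (F α β)^[i] b)
  aff : ∀ x ∈ Icc a b, (F α β)^[i] x = (F α β)^[i] a + β ^ i * (x - a)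

theorem gap_step (h : Par α β) {P : Set ℝ} (hP : Cycle α β P) {a b : ℝ} (ha : a ∈ P) (hb : b ∈ P)
    (hab : a < b) {i : ℕ} (hg : Gap α β P a b i)
    (hc : ¬ ((F α β)^[i] a < cc α β ∧ cc α β < (F α β)^[i] b)) : Gap α β P a b (i + 1) := by
  have hb1 := h.b1
  set A := (F α β)^[i] a with hA
  set B := (F α β)^[i] b with hB
  have hAP : A ∈ P := iter_P hP ha i
  have hBP : B ∈ P := iter_P hP hb i
  have hAB : A < B := by
    rw [hB, hg.len]
    have : 0 < β ^ i * (b - a) := mul_pos (by positivity) (by linarith)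
    linarith
  have hside : B < cc α β ∨ cc α β < A := by
    rcases lt_or_gt_of_ne (hP.sub hAP).2.2 with h1 | h1
    · rcases lt_or_gt_of_ne (hP.sub hBP).2.2 with h2 | h2
      · exact Or.inl h2
      · exact absurd ⟨h1, h2⟩ hc
    · exact Or.inr h1
  have hF : ∀ y ∈ Icc A B, F α β y = F α β A + β * (y - A) := by
    intro y hy
    rcases hside with h1 | h1
    · rw [F_left (lt_of_le_of_lt hy.2 h1), F_left (hAB.trans h1)]
      ring
    · rw [F_right (h1.le.trans hy.1), F_right h1.le]
      ring
  have hin : ∀ x ∈ Icc a b, (F α β)^[i] x ∈ Icc A B := by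
    intro x hx
    have hp : 0 < β ^ i := by positivity
    rw [hg.aff x hx]
    constructor
    · have : 0 ≤ β ^ i * (x - a) := mul_nonneg hp.le (by linarith [hx.1])
      linarith
    · rw [hB, hg.len]
      have : β ^ i * (x - a) ≤ β ^ i * (b - a) :=
        mul_le_mul_of_nonneg_left (by linarith [hx.2]) hp.le
      linarith
  have haff : ∀ x ∈ Icc a b, (F α β)^[i + 1] x = (F α β)^[i + 1] a + β ^ (i + 1) * (x - a) := by
    intro x hx
    rw [Function.iterate_succ_apply', Function.iterate_succ_apply', hF _ (hin x hx),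
      hg.aff x hx, ← hA, pow_succ]
    ring
  refine ⟨haff b ⟨hab.le, le_rfl⟩, ?_, haff⟩
  intro y hy
  rw [Function.iterate_succ_apply', Function.iterate_succ_apply', ← hA, ← hB]
  rintro ⟨h1, h2⟩
  rw [hF B ⟨hAB.le, le_rfl⟩] at h2
  have e1 : A < A + (y - F α β A) / β := by
    have : 0 < (y - F α β A) / β := div_pos (by linarith) (by linarith)
    linarith
  have e2 : A + (y - F α β A) / β < B := by
    have : (y - F α β A) / β < B - A := by
      rw [div_lt_iff₀ (by linarith)]
      linarith [mul_comm (B - A) β]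
    linarith
  have e3 : F α β (A + (y - F α β A) / β) = y := by
    rw [hF _ ⟨e1.le, e2.le⟩]
    field_simp
    ring
  have hAD := hP.sub hAP
  have hBD := hP.sub hBP
  have e4 : A + (y - F α β A) / β ∈ D α β := by
    refine ⟨by linarith [hAD.1], by linarith [hBD.2.1], ?_⟩
    rcases hside with h3 | h3
    · exact (e2.trans h3).ne
    · exact (h3.trans e1).ne'
  have e5 : A + (y - F α β A) / β ∈ P := by
    apply hP.bwd _ e4
    rw [e3]
    exact hy
  exact hg.free _ e5 ⟨e1, e2⟩

/-- The consequences of the existence of a cycle for a transitive map. -/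
theorem cycle_params (h : Par α β) (htr : TR α β) {P : Set ℝ} (hP : Cycle α β P) :
    ∃ n : ℕ, 1 ≤ n ∧ β ^ n = 2 ∧ ∃ L : List Bool, α * β = (β - 1) * pe L β := by
  have hb := h.b1
  have ha0 := h.a0
  have hc0 := c_pos h
  have hc1 := c_lt h
  have hbc := bc h
  obtain ⟨x1, hx1, hmin⟩ := Set.exists_min_image P id hP.fin hP.ne
  obtain ⟨xm, hxm, hmax⟩ := Set.exists_max_image P id hP.fin hP.ne
  simp only [id] at hmin hmax
  have hx1D := hP.sub hx1
  have hxmD := hP.sub hxm
  have hx1c : x1 < cc α β := by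
    rcases lt_or_gt_of_ne hx1D.2.2 with h1 | h1
    · exact h1
    · have := F_lt h h1 hx1D.2.1
      linarith [hmin _ (hP.fwd _ hx1)]
  have hxmc : cc α β < xm := by
    rcases lt_or_gt_of_ne hxmD.2.2 with h1 | h1
    · have := F_gt h hxmD.1 h1
      linarith [hmax _ (hP.fwd _ hxm)]
    · exact h1
  obtain ⟨l, ⟨hlP, hlc⟩, hlmax⟩ := Set.exists_max_image (P ∩ Iio (cc α β)) id
    (hP.fin.subset inter_subset_left) ⟨x1, hx1, hx1c⟩
  obtain ⟨r, ⟨hrP, hrc⟩, hrmin⟩ := Set.exists_min_image (P ∩ Ioi (cc α β)) id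
    (hP.fin.subset inter_subset_left) ⟨xm, hxm, hxmc⟩
  simp only [id] at hlmax hrmin
  rw [mem_Iio] at hlc
  rw [mem_Ioi] at hrc
  have hlD := hP.sub hlP
  have hrD := hP.sub hrP
  have hFl : F α β l = xm := by
    apply le_antisymm (hmax _ (hP.fwd _ hlP))
    by_contra hlt
    push Not at hlt
    have h1 := F_gt_alpha h hlD.1 hlc
    have h2 : p0 α β xm ∈ P := by
      apply hP.bwd _ (p0_D h (by linarith) hxmD.2.1)
      rw [F_p0 h hxmD.2.1]
      exact hxm
    have h3 := hlmax _ ⟨h2, p0_lt h hxmD.2.1⟩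
    rw [F_left hlc] at hlt
    rw [p0, div_le_iff₀ (by linarith)] at h3
    linarith [mul_comm l β]
  have hFr : F α β r = x1 := by
    apply le_antisymm _ (hmin _ (hP.fwd _ hrP))
    by_contra hlt
    push Not at hlt
    have h1 := F_lt_gamma h hrc hrD.2.1
    have h2 : p1 α β x1 ∈ P := by
      apply hP.bwd _ (p1_D h hx1D.1 (by linarith))
      rw [F_p1 h hx1D.1]
      exact hx1
    have h3 := hrmin _ ⟨h2, p1_gt h hx1D.1⟩
    rw [F_right hrc.le] at hlt
    rw [p1, le_div_iff₀ (by linarith)] at h3
    linarith [mul_comm r β]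
  set a := F α β xm with ha
  set b := F α β x1 with hb'
  have haP : a ∈ P := hP.fwd _ hxm
  have hbP : b ∈ P := hP.fwd _ hx1
  have haD := hP.sub haP
  have hbD := hP.sub hbP
  have haγ : a < α + β - 1 := F_lt_gamma h hxmc hxmD.2.1
  have hbα : α < b := F_gt_alpha h hx1D.1 hx1c
  have haα : a ≤ α := by
    by_contra hlt
    push Not at hlt
    exact hP.out _ haP ⟨hlt, haγ⟩
  have hbγ : α + β - 1 ≤ b := by
    by_contra hlt
    push Not at hlt
    exact hP.out _ hbP ⟨hbα, hlt⟩
  have hab : a < b := by linarith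
  have hFa : a = β * xm + α - 1 := by rw [ha, F_right hxmc.le]
  have hFb : b = β * x1 + α := by rw [hb', F_left hx1c]
  have hgap0 : ∀ y ∈ P, ¬ (a < y ∧ y < b) := by
    rintro y hy ⟨h1, h2⟩
    have hyD := hP.sub hy
    by_cases h3 : y < α + β - 1
    · have h4 : p1 α β y ∈ P := by
        apply hP.bwd _ (p1_D h hyD.1 h3)
        rw [F_p1 h hyD.1]
        exact hy
      have h5 := hmax _ h4
      rw [p1, div_le_iff₀ (by linarith)] at h5
      linarith [mul_comm xm β]
    · push Not at h3
      have h4 : p0 α β y ∈ P := by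
        apply hP.bwd _ (p0_D h (by linarith) hyD.2.1)
        rw [F_p0 h hyD.2.1]
        exact hy
      have h5 := hmin _ h4
      rw [p0, le_div_iff₀ (by linarith)] at h5
      linarith [mul_comm x1 β]
  have hg0 : Gap α β P a b 0 := by
    refine ⟨by simp, ?_, ?_⟩
    · intro y hy
      exact hgap0 y hy
    · intro x _
      simp
  -- the first time the gap contains `c`
  have hex : ∃ i, (F α β)^[i] a < cc α β ∧ cc α β < (F α β)^[i] b := by
    by_contra hcon
    push Not at hcon
    have hall : ∀ i, Gap α β P a b i := by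
      intro i
      induction i with
      | zero => exact hg0
      | succ i ih =>
        refine gap_step h hP haP hbP hab ih ?_
        rintro ⟨h1, h2⟩
        linarith [hcon i h1]
    obtain ⟨i, hi⟩ := pow_unbounded_of_one_lt (1 / (b - a)) hb
    rw [div_lt_iff₀ (by linarith)] at hi
    have h1 := (hall i).len
    have h2 := hP.sub (iter_P hP haP i)
    have h3 := hP.sub (iter_P hP hbP i)
    linarith [h2.1, h3.2.1]
  classical
  set k := Nat.find hex with hk
  have hkc := Nat.find_spec hex
  rw [← hk] at hkc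
  have hgaps : ∀ j, j ≤ k → Gap α β P a b j := by
    intro j
    induction j with
    | zero => intro _; exact hg0
    | succ j ih =>
      intro hj
      exact gap_step h hP haP hbP hab (ih (by omega)) (Nat.find_min hex (by omega))
  have hgk := hgaps k le_rfl
  have hkl : (F α β)^[k] a = l := by
    have h1 := hlmax _ ⟨iter_P hP haP k, hkc.1⟩
    rcases lt_or_eq_of_le h1 with h2 | h2
    · exact absurd ⟨h2, hlc.trans hkc.2⟩ (hgk.free l hlP)
    · exact h2
  have hkr : (F α β)^[k] b = r := by
    have h1 := hrmin _ ⟨iter_P hP hbP k, hkc.2⟩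
    rcases lt_or_eq_of_le h1 with h2 | h2
    · exact absurd ⟨hkc.1.trans hrc, h2⟩ (hgk.free r hrP)
    · exact h2.symm
  have hlen := hgk.len
  rw [hkl, hkr] at hlen
  have hp : 0 < β ^ k := by positivity
  have hp1 : 1 ≤ β ^ k := one_le_pow₀ hb.le
  set c' := a + (cc α β - l) / β ^ k with hc'
  have hc'1 : β ^ k * (c' - a) = cc α β - l := by
    rw [hc']
    field_simp
    ring
  have hFl' : xm = β * l + α := by rw [← hFl, F_left hlc]
  have hFr' : x1 = β * r + α - 1 := by rw [← hFr, F_right hrc.le]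
  have hac' : a < c' := by
    have : 0 < (cc α β - l) / β ^ k := div_pos (by linarith) hp
    linarith
  have hc'b : c' < b := by
    by_contra hlt
    push Not at hlt
    have : β ^ k * (b - a) ≤ β ^ k * (c' - a) := mul_le_mul_of_nonneg_left (by linarith) hp.le
    linarith
  -- left part
  have hL1 : ∀ x, a ≤ x → x < c' → (F α β)^[k + 1] x = xm + β * (β ^ k * (x - a)) := by
    intro x h1 h2
    have h3 : β ^ k * (x - a) < β ^ k * (c' - a) := mul_lt_mul_of_pos_left (by linarith) hp
    rw [Function.iterate_succ_apply', hgk.aff x ⟨h1, by linarith⟩, hkl, F_left (by linarith), hFl']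
    ring
  have hL2 : ∀ x, a ≤ x → x < c' → (F α β)^[k + 2] x = a + β ^ (k + 2) * (x - a) ∧
      (F α β)^[k + 2] x < α + β - 1 := by
    intro x h1 h2
    have h3 : 0 ≤ β * (β ^ k * (x - a)) := by
      apply mul_nonneg (by linarith)
      exact mul_nonneg hp.le (by linarith)
    have h4 : (F α β)^[k + 1] x < 1 := (iter_mem h (n := k + 1)
      ⟨by linarith [haD.1], by linarith [hbD.2.1]⟩).2
    have h5 : cc α β < (F α β)^[k + 1] x := by
      rw [hL1 x h1 h2]
      linarith
    refine ⟨?_, ?_⟩
    · rw [Function.iterate_succ_apply', F_right h5.le, hL1 x h1 h2, hFa, pow_succ, pow_succ]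
      ring
    · rw [Function.iterate_succ_apply']
      exact F_lt_gamma h h5 h4
  -- right part
  have hR1 : ∀ x, c' ≤ x → x < b → (F α β)^[k + 1] x = x1 - β * (β ^ k * (b - x)) := by
    intro x h1 h2
    have h3 : β ^ k * (c' - a) ≤ β ^ k * (x - a) :=
      mul_le_mul_of_nonneg_left (by linarith) hp.le
    rw [Function.iterate_succ_apply', hgk.aff x ⟨by linarith, h2.le⟩, hkl, F_right (by linarith),
      hFr', hlen]
    ring
  have hR2 : ∀ x, c' ≤ x → x < b → (F α β)^[k + 2] x = b - β ^ (k + 2) * (b - x) ∧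
      α ≤ (F α β)^[k + 2] x := by
    intro x h1 h2
    have h3 : 0 ≤ β * (β ^ k * (b - x)) := by
      apply mul_nonneg (by linarith)
      exact mul_nonneg hp.le (by linarith)
    have h4 : 0 ≤ (F α β)^[k + 1] x := (iter_mem h (n := k + 1)
      ⟨by linarith [haD.1], by linarith [hbD.2.1]⟩).1
    have h5 : (F α β)^[k + 1] x < cc α β := by
      rw [hR1 x h1 h2]
      linarith
    refine ⟨?_, ?_⟩
    · rw [Function.iterate_succ_apply', F_left h5, hR1 x h1 h2, hFb, pow_succ, pow_succ]
      ring
    · rw [Function.iterate_succ_apply', F_left h5]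
      have : 0 ≤ β * (F α β)^[k + 1] x := mul_nonneg (by linarith) h4
      linarith
  have hpn : 1 ≤ β ^ (k + 2) := one_le_pow₀ hb.le
  have hG1 : ∀ x, α ≤ x → x < α + β - 1 → α ≤ (F α β)^[k + 2] x ∧
      (F α β)^[k + 2] x < α + β - 1 := by
    intro x h1 h2
    rcases lt_or_ge x c' with h3 | h3
    · obtain ⟨h4, h5⟩ := hL2 x (by linarith) h3
      refine ⟨?_, h5⟩
      rw [h4]
      have : 1 * (x - a) ≤ β ^ (k + 2) * (x - a) :=
        mul_le_mul_of_nonneg_right hpn (by linarith)
      linarith
    · obtain ⟨h4, h5⟩ := hR2 x h3 (by linarith)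
      refine ⟨h5, ?_⟩
      rw [h4]
      have : 1 * (b - x) ≤ β ^ (k + 2) * (b - x) :=
        mul_le_mul_of_nonneg_right hpn (by linarith)
      linarith
  have hG2 : ∀ x, α ≤ x → x < α + β - 1 → ∀ j, j < k + 2 →
      ¬ (a < (F α β)^[j] x ∧ (F α β)^[j] x < α) ∧
      ¬ (α + β - 1 < (F α β)^[j] x ∧ (F α β)^[j] x < b) := by
    intro x h1 h2 j hj
    rcases Nat.eq_zero_or_pos j with rfl | hj0
    · refine ⟨?_, ?_⟩
      · rintro ⟨_, h3⟩
        have : x < α := h3
        linarith
      · rintro ⟨h3, _⟩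
        have : α + β - 1 < x := h3
        linarith
    · have hno : ¬ (a < (F α β)^[j] x ∧ (F α β)^[j] x < b) := by
        rintro ⟨h3, h4⟩
        rcases Nat.lt_or_ge k j with h5 | h5
        · -- j = k + 1
          have hjk : j = k + 1 := by omega
          rw [hjk] at h3 h4
          rcases lt_or_ge x c' with h6 | h6
          · rw [hL1 x (by linarith) h6] at h4
            have h7 : 0 ≤ β * (β ^ k * (x - a)) := by
              apply mul_nonneg (by linarith)
              exact mul_nonneg hp.le (by linarith)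
            linarith [hmax b hbP]
          · rw [hR1 x h6 (by linarith)] at h3
            have h7 : 0 ≤ β * (β ^ k * (b - x)) := by
              apply mul_nonneg (by linarith)
              exact mul_nonneg hp.le (by linarith)
            linarith [hmin a haP]
        · have hgj := hgaps j h5
          have hpj : 0 < β ^ j := by positivity
          have hpj1 : 1 < β ^ j := one_lt_pow₀ hb (by omega)
          rw [hgj.aff x ⟨by linarith, by linarith⟩] at h3 h4
          have h6 : 0 ≤ β ^ j * (x - a) := mul_nonneg hpj.le (by linarith)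
          have h7 : β ^ j * (x - a) < β ^ j * (b - a) :=
            mul_lt_mul_of_pos_left (by linarith) hpj
          have hAj := iter_P hP haP j
          have hBj := iter_P hP hbP j
          have h8 : (F α β)^[j] a ≤ a := by
            by_contra hlt
            push Not at hlt
            exact hgap0 _ hAj ⟨hlt, by linarith⟩
          have h9 : b ≤ (F α β)^[j] b := by
            by_contra hlt
            push Not at hlt
            exact hgap0 _ hBj ⟨by linarith [hgj.len], hlt⟩
          rcases lt_or_eq_of_le h8 with h10 | h10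
          · exact hgj.free a haP ⟨h10, by linarith⟩
          · rcases lt_or_eq_of_le h9 with h11 | h11
            · exact hgj.free b hbP ⟨by linarith, h11⟩
            · have h12 := hgj.len
              rw [h10, ← h11] at h12
              have : 1 * (b - a) < β ^ j * (b - a) :=
                mul_lt_mul_of_pos_right hpj1 (by linarith)
              linarith
      refine ⟨?_, ?_⟩
      · rintro ⟨h3, h4⟩
        exact hno ⟨h3, by linarith⟩
      · rintro ⟨h3, h4⟩
        exact hno ⟨by linarith, h4⟩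
  have hG3 : ∀ q : ℕ, ∀ x, α ≤ x → x < α + β - 1 → α ≤ (F α β)^[(k + 2) * q] x ∧
      (F α β)^[(k + 2) * q] x < α + β - 1 := by
    intro q
    induction q with
    | zero => intro x h1 h2; exact ⟨h1, h2⟩
    | succ q ih =>
      intro x h1 h2
      rw [Nat.mul_succ, add_comm, Function.iterate_add_apply]
      obtain ⟨h3, h4⟩ := ih x h1 h2
      exact hG1 _ h3 h4
  have hG4 : ∀ m : ℕ, ∀ x, α ≤ x → x < α + β - 1 →
      ¬ (a < (F α β)^[m] x ∧ (F α β)^[m] x < α) ∧
      ¬ (α + β - 1 < (F α β)^[m] x ∧ (F α β)^[m] x < b) := by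
    intro m x h1 h2
    rw [← Nat.mod_add_div m (k + 2), Function.iterate_add_apply]
    obtain ⟨h3, h4⟩ := hG3 (m / (k + 2)) x h1 h2
    exact hG2 _ h3 h4 _ (Nat.mod_lt _ (by omega))
  have hαγ1 : α + β - 1 ≤ 1 := by linarith [h.ab]
  have haα' : a = α := by
    by_contra hne
    have hlt : a < α := lt_of_le_of_ne haα hne
    obtain ⟨n, y, hy1, hy2⟩ := htr (Ioo α (α + β - 1)) (Ioo a α) isOpen_Ioo isOpen_Ioo
      ⟨α + (β - 1) / 2, ⟨by linarith, by linarith⟩, ⟨by linarith, by linarith⟩⟩
      ⟨(a + α) / 2, ⟨by linarith, by linarith⟩, ⟨by linarith [haD.1], by linarith⟩⟩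
    obtain ⟨t, ht, _, hte⟩ := (mem_iter _ _ _).mp hy1
    rw [← hte] at hy2
    exact (hG4 n t ht.1.le ht.2).1 ⟨hy2.1, hy2.2⟩
  have hbγ' : b = α + β - 1 := by
    by_contra hne
    have hlt : α + β - 1 < b := lt_of_le_of_ne hbγ (Ne.symm hne)
    obtain ⟨n, y, hy1, hy2⟩ := htr (Ioo α (α + β - 1)) (Ioo (α + β - 1) b) isOpen_Ioo isOpen_Ioo
      ⟨α + (β - 1) / 2, ⟨by linarith, by linarith⟩, ⟨by linarith, by linarith⟩⟩
      ⟨(α + β - 1 + b) / 2, ⟨by linarith, by linarith⟩, ⟨by linarith, by linarith [hbD.2.1]⟩⟩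
    obtain ⟨t, ht, _, hte⟩ := (mem_iter _ _ _).mp hy1
    rw [← hte] at hy2
    exact (hG4 n t ht.1.le ht.2).2 ⟨hy2.1, hy2.2⟩
  have hpow : β ^ (k + 2) = 2 := by
    have e1 : β ^ (k + 2) * (c' - a) = α + β - 1 - a := by
      have : β ^ (k + 2) * (c' - a) = β * (β * (β ^ k * (c' - a))) := by
        rw [pow_succ, pow_succ]
        ring
      rw [this, hc'1, hFa, hFl']
      have : β * (cc α β - l) = 1 - α - β * l := by rw [mul_sub, hbc]
      rw [this]
      ring
    have e2 : β ^ (k + 2) * (b - c') = b - α := by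
      have : β ^ (k + 2) * (b - c') = β * (β * (β ^ k * (b - a) - β ^ k * (c' - a))) := by
        rw [pow_succ, pow_succ]
        ring
      have e3 : β ^ k * (b - a) = r - l := by linarith
      rw [this, hc'1, e3, hFb, hFr']
      have : β * (r - l - (cc α β - l)) = β * r - (1 - α) := by
        rw [← hbc]
        ring
      rw [this]
      ring
    have e3 : β ^ (k + 2) * (b - a) = 2 * (b - a) := by
      have : β ^ (k + 2) * (b - a) = β ^ (k + 2) * (c' - a) + β ^ (k + 2) * (b - c') := by ring
      rw [this, e1, e2]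
      linarith
    exact mul_right_cancel₀ (by linarith : b - a ≠ 0) e3
  refine ⟨k + 2, by omega, hpow, ?_⟩
  obtain ⟨L, hL⟩ := itinerary h (k + 2) α
  refine ⟨L, ?_⟩
  have hfix : (F α β)^[k + 2] α = α := by
    rw [← haα']
    have := (hL2 a le_rfl hac').1
    rw [sub_self, mul_zero, add_zero] at this
    rw [haα'] at this ⊢
    exact this
  rw [hfix, hpow] at hL
  linarith

end Pool.Agent.R241.CE
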